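import Pool.Agent.Lib.MP_832176_co.Final

/-! Q2 of MP_832176_co for all `N` and `t` and all large `k`: the minimum foundation size is
`k + t + 1` as soon as `k ≥ (⌊t/2⌋ + 1) * 2 * ⌊N/2⌋`, never for `k < N - 1`, and for `t = 1`
the threshold is exact. -/

namespace Pool.Agent.Results.MP_832176_co.FoundationLargeBlocks

open NLegged

theorem result :
    (∀ N t k : ℕ, 2 ≤ N → t < k → (t / 2 + 1) * (2 * (N / 2)) ≤ k →
      IsLeast (foundationSizes N t k) (k + t + 1)) ∧
    (∀ N t k : ℕ, 2 ≤ N → t < k → IsLeast (foundationSizes N t k) (k + t + 1) → N ≤ k + 1) ∧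
    (∀ N k : ℕ, 2 ≤ N → 1 < k →
      (IsLeast (foundationSizes N 1 k) (k + 2) ↔ 2 * (N / 2) ≤ k)) := by
  refine ⟨fun N t k hN htk hk => foundation_large hN htk.le hk,
    fun N t k hN htk h => legs_bound hN htk.le h.1, ?_⟩
  intro N k hN hk
  constructor
  · intro h
    have h1 : N ≤ k + 1 := legs_bound (t := 1) hN hk.le h.1
    rcases Nat.lt_or_ge k N with h2 | h2
    · have h3 : N = k + 1 := by omega
      obtain ⟨v, T, hT, hc⟩ := h.1
      have hs := str_of_legged hN hk.le hT
      have he := even_of_legs (by omega) hs (Y := foundation T) (subset_foundation T) hc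
        (by rw [Fintype.card_fin, h3])
      obtain ⟨j, hj⟩ := he
      omega
    · omega
  · intro h
    have := foundation_large (t := 1) hN hk.le (by simpa using h)
    exact this

end Pool.Agent.Results.MP_832176_co.FoundationLargeBlocks
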