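import Pool.Agent.Lib.MP_832176_co.VolEq

/-! Q2 of MP_832176_co: the order of magnitude of the minimum foundation of an `N`-legged
trade, with explicit bounds for all `N`, `t`, `k`, and the case of equality in the lower bound. -/

namespace Pool.Agent.Results.MP_832176_co.FoundationOrder

open NLegged

theorem result :
    (∀ N t k : ℕ, 2 ≤ N → t < k → ∃ F : ℕ, IsLeast (foundationSizes N t k) F ∧
      N ≤ (F - t).choose (k - t) ∧
      (∀ q : ℕ, q.Prime → k ≤ q → N ≤ q ^ (k - t) → F ≤ k * q) ∧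
      (N : ℝ) ^ (1 / ((k : ℝ) - t)) ≤ 2 * ((F : ℝ) - k + 1) ∧
      (F : ℝ) ≤ 4 * k ^ 2 * (N : ℝ) ^ (1 / ((k : ℝ) - t))) ∧
    (∀ t k n : ℕ, t < k → k < n →
      (IsLeast (foundationSizes ((n - t).choose (k - t)) t k) n ↔ LargeSet t k n)) := by
  refine ⟨?_, fun t k n htk hkn => foundation_eq_iff htk hkn⟩
  intro N t k hN htk
  obtain ⟨x, hx, hx1, hx2⟩ := exists_root N (k - t) (by omega) (by omega)
  obtain ⟨hlow, m₀, hm₀, hm₀'⟩ := foundation_root hN htk hx hx1 hx2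
  classical
  have hex : ∃ m, m ∈ foundationSizes N t k := ⟨m₀, hm₀⟩
  refine ⟨Nat.find hex, ⟨Nat.find_spec hex, fun m hm => Nat.find_min' hex hm⟩, ?_, ?_, ?_, ?_⟩
  · exact foundation_choose hN htk (Nat.find_spec hex)
  · intro q hq hkq hNq
    obtain ⟨f, hf, hmem⟩ := (pow_mem_volumes hq hkq htk.le hNq).2
    exact (Nat.find_min' hex hmem).trans hf
  · have hD : ((k - t : ℕ) : ℝ) = (k : ℝ) - t := by
      rw [Nat.cast_sub htk.le]
    have hDpos : (0 : ℝ) < (k : ℝ) - t := by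
      rw [← hD]
      exact_mod_cast (by omega : 0 < k - t)
    have h1 : (N : ℝ) ^ (1 / ((k : ℝ) - t)) ≤ ((2 * x : ℕ) : ℝ) := by
      have h2 : (N : ℝ) ≤ (((2 * x : ℕ) : ℝ)) ^ ((k : ℝ) - t) := by
        rw [← hD, Real.rpow_natCast]
        have h3 : N ≤ (2 * x) ^ (k - t) := hx2.le.trans (Nat.pow_le_pow_left (by omega) _)
        exact_mod_cast h3
      calc (N : ℝ) ^ (1 / ((k : ℝ) - t))
          ≤ ((((2 * x : ℕ) : ℝ)) ^ ((k : ℝ) - t)) ^ (1 / ((k : ℝ) - t)) :=
            Real.rpow_le_rpow (by positivity) h2 (by positivity)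
        _ = ((2 * x : ℕ) : ℝ) := by
            rw [← Real.rpow_mul (by positivity), mul_div_cancel₀ _ hDpos.ne', Real.rpow_one]
    refine h1.trans ?_
    have h4 := hlow _ (Nat.find_spec hex)
    have h5 : x + k ≤ Nat.find hex + 1 := by omega
    have h6 : ((x : ℝ)) + k ≤ Nat.find hex + 1 := by exact_mod_cast h5
    push_cast
    linarith
  · have hD : ((k - t : ℕ) : ℝ) = (k : ℝ) - t := by
      rw [Nat.cast_sub htk.le]
    have hDpos : (0 : ℝ) < (k : ℝ) - t := by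
      rw [← hD]
      exact_mod_cast (by omega : 0 < k - t)
    have h1 : (x : ℝ) ≤ (N : ℝ) ^ (1 / ((k : ℝ) - t)) := by
      have h2 : (x : ℝ) ^ ((k : ℝ) - t) ≤ N := by
        rw [← hD, Real.rpow_natCast]
        exact_mod_cast hx1
      calc (x : ℝ) = ((x : ℝ) ^ ((k : ℝ) - t)) ^ (1 / ((k : ℝ) - t)) := by
            rw [← Real.rpow_mul (by positivity), mul_div_cancel₀ _ hDpos.ne', Real.rpow_one]
        _ ≤ _ := Real.rpow_le_rpow (by positivity) h2 (by positivity)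
    have h3 : Nat.find hex ≤ 4 * k ^ 2 * x := (Nat.find_min' hex hm₀).trans hm₀'
    calc (Nat.find hex : ℝ) ≤ 4 * k ^ 2 * x := by exact_mod_cast h3
      _ ≤ _ := mul_le_mul_of_nonneg_left h1 (by positivity)

end Pool.Agent.Results.MP_832176_co.FoundationOrder
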