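import Pool.Agent.Lib.MP_832176_co.Final

/-! Q2 of MP_832176_co for three legs: the minimum foundation size of a `T[3](t,k,v)` trade,
for all `0 ≤ t < k`. -/

namespace Pool.Agent.Results.MP_832176_co.FoundationThreeLegs

open NLegged

theorem result (t k : ℕ) (htk : t < k) :
    IsLeast (foundationSizes 3 t k)
      (if Even t ∧ k = t + 1 then k + t + 2 else k + t + 1) := by
  by_cases h : Even t ∧ k = t + 1
  · rw [if_pos h]
    obtain ⟨ht, rfl⟩ := h
    have hlow : ∀ f ∈ foundationSizes 3 t (t + 1), t + 1 + t + 2 ≤ f := by
      intro f hf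
      have h1 := foundation_lower (by norm_num) (by omega) hf
      rcases Nat.lt_or_ge f (t + 1 + t + 2) with h2 | h2
      · exfalso
        obtain ⟨v, T, hT, hc⟩ := hf
        have hs := str_of_legged (by norm_num) (by omega) hT
        exact no_three hs ht (Y := foundation T) (subset_foundation T) (by omega)
          (a := 0) (b := 1) (c := 2) (by decide) (by decide) (by decide)
      · exact h2
    refine ⟨?_, hlow⟩
    obtain ⟨j, hj⟩ := ht
    have hj2 : t = 2 * j := by omega
    have hex := ex_three j
    obtain ⟨f', hf', hmem⟩ := foundation_attained (N := 3) le_rfl hex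
    rw [← hj2] at hmem
    have h3 := hlow f' hmem
    have h4 : f' = t + 1 + t + 2 := by omega
    rw [← h4]
    exact hmem
  · rw [if_neg h]
    apply foundation_large (by norm_num) (by omega)
    have h1 : 2 * (3 / 2) = 2 := by norm_num
    rw [h1]
    rcases Nat.even_or_odd t with he | ho
    · have hne : k ≠ t + 1 := fun hk => h ⟨he, hk⟩
      omega
    · obtain ⟨j, hj⟩ := ho
      omega

end Pool.Agent.Results.MP_832176_co.FoundationThreeLegs
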