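import Pool.Agent.Lib.MP_832176_co.VolEq

/-! Q1 of MP_832176_co: the order of magnitude of the minimum volume of an `N`-legged trade,
with explicit bounds for all `N`, `t`, `k`, and the case of equality in the lower bound. -/

namespace Pool.Agent.Results.MP_832176_co.VolumeOrder

open NLegged

theorem result :
    (∀ N t k : ℕ, 2 ≤ N → t < k → ∃ V : ℕ, IsLeast (volumes N t k) V ∧
      (∀ n : ℕ, k ≤ n → (n - t).choose (k - t) ≤ N → n.choose t ≤ k.choose t * V) ∧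
      (∀ q : ℕ, q.Prime → k ≤ q → N ≤ q ^ (k - t) → V ≤ q ^ t) ∧
      (N : ℝ) ^ ((t : ℝ) / ((k : ℝ) - t)) ≤ 2 ^ t * k.descFactorial t * V ∧
      (V : ℝ) ≤ (4 * k) ^ t * (N : ℝ) ^ ((t : ℝ) / ((k : ℝ) - t))) ∧
    (∀ t k n V : ℕ, 1 ≤ t → t < k → k < n →
      IsLeast (volumes ((n - t).choose (k - t)) t k) V →
      (k.choose t * V = n.choose t ↔ LargeSet t k n)) := by
  refine ⟨?_, fun t k n V ht htk hkn hV => volume_eq_iff ht htk hkn hV⟩
  intro N t k hN htk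
  obtain ⟨x, hx, hx1, hx2⟩ := exists_root N (k - t) (by omega) (by omega)
  obtain ⟨hlow, m₀, hm₀, hm₀'⟩ := volume_root hN htk hx hx1 hx2
  classical
  have hex : ∃ m, m ∈ volumes N t k := ⟨m₀, hm₀⟩
  refine ⟨Nat.find hex, ⟨Nat.find_spec hex, fun m hm => Nat.find_min' hex hm⟩, ?_, ?_, ?_, ?_⟩
  · intro n hkn hn
    exact volumes_lower hN htk hkn hn (Nat.find_spec hex)
  · intro q hq hkq hNq
    exact Nat.find_min' hex (pow_mem_volumes hq hkq htk.le hNq).1
  · have hD : ((k - t : ℕ) : ℝ) = (k : ℝ) - t := by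
      rw [Nat.cast_sub htk.le]
    have hDpos : (0 : ℝ) < (k : ℝ) - t := by
      rw [← hD]
      exact_mod_cast (by omega : 0 < k - t)
    have h1 : (N : ℝ) ^ ((t : ℝ) / ((k : ℝ) - t)) ≤ ((2 * x : ℕ) : ℝ) ^ t := by
      have h2 : (N : ℝ) ≤ (((2 * x : ℕ) : ℝ)) ^ ((k : ℝ) - t) := by
        rw [← hD, Real.rpow_natCast]
        have h3 : N ≤ (2 * x) ^ (k - t) := hx2.le.trans (Nat.pow_le_pow_left (by omega) _)
        exact_mod_cast h3
      calc (N : ℝ) ^ ((t : ℝ) / ((k : ℝ) - t))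
          ≤ ((((2 * x : ℕ) : ℝ)) ^ ((k : ℝ) - t)) ^ ((t : ℝ) / ((k : ℝ) - t)) :=
            Real.rpow_le_rpow (by positivity) h2 (by positivity)
        _ = (((2 * x : ℕ) : ℝ)) ^ (t : ℝ) := by
            rw [← Real.rpow_mul (by positivity), mul_div_cancel₀ _ hDpos.ne']
        _ = ((2 * x : ℕ) : ℝ) ^ t := Real.rpow_natCast _ _
    refine h1.trans ?_
    have h4 := hlow _ (Nat.find_spec hex)
    have h5 : (2 * x) ^ t ≤ 2 ^ t * k.descFactorial t * Nat.find hex := by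
      rw [mul_pow, mul_assoc]
      exact Nat.mul_le_mul_left _ h4
    exact_mod_cast h5
  · have hD : ((k - t : ℕ) : ℝ) = (k : ℝ) - t := by
      rw [Nat.cast_sub htk.le]
    have hDpos : (0 : ℝ) < (k : ℝ) - t := by
      rw [← hD]
      exact_mod_cast (by omega : 0 < k - t)
    have h1 : (x : ℝ) ^ t ≤ (N : ℝ) ^ ((t : ℝ) / ((k : ℝ) - t)) := by
      have h2 : (x : ℝ) ^ ((k : ℝ) - t) ≤ N := by
        rw [← hD, Real.rpow_natCast]
        exact_mod_cast hx1
      calc (x : ℝ) ^ t = (x : ℝ) ^ (t : ℝ) := (Real.rpow_natCast _ _).symm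
        _ = ((x : ℝ) ^ ((k : ℝ) - t)) ^ ((t : ℝ) / ((k : ℝ) - t)) := by
            rw [← Real.rpow_mul (by positivity), mul_div_cancel₀ _ hDpos.ne']
        _ ≤ _ := Real.rpow_le_rpow (by positivity) h2 (by positivity)
    have h3 : Nat.find hex ≤ (4 * k * x) ^ t := (Nat.find_min' hex hm₀).trans hm₀'
    calc (Nat.find hex : ℝ) ≤ (4 * k * x) ^ t := by exact_mod_cast h3
      _ = (4 * k) ^ t * (x : ℝ) ^ t := by rw [mul_pow]
      _ ≤ _ := mul_le_mul_of_nonneg_left h1 (by positivity)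

end Pool.Agent.Results.MP_832176_co.VolumeOrder
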